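import Pool.Agent.VHC.Tile
import Pool.Agent.VHM.Enc
import Pool.Agent.VHS.Det

/-!
# VHC/Enc : the computable family of tile lists of a family of machines

helper26, for `MP_720b7c_al`.  Main theorem `enc`.
-/

set_option autoImplicit false

open scoped Classical

namespace Pool.Agent.VHC

open Pool.Agent.VHS
open Pool.Agent
open Pool.Agent.VHM (Fam Enc)

/-- the tiles of the list are the tiles of level `0` -/
theorem enc_of_det (K : Skel) (F : Fam) (n : ℕ) (hdet : (S K (F.mach n) 0).Det) :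
    Nonempty (Enc (tiles (dat K) (num F) n) (S K (F.mach n) 0)) := by
  have h1 : ∀ k : Fin (tiles (dat K) (num F) n).length, ∃ τ : T K (F.mach n) 0,
      (tiles (dat K) (num F) n)[k] = qd (VHC.enc F n) τ := by
    intro k
    obtain ⟨τ, hτ⟩ := (mem_tiles_iff n _).1 ((tiles (dat K) (num F) n).getElem_mem k.2)
    exact ⟨τ, hτ.symm⟩
  choose φ hφ using h1
  have hb : Function.Bijective φ := by
    constructor
    · intro k k' h
      have h2 := (hφ k).trans ((congrArg (qd (VHC.enc F n)) h).trans (hφ k').symm)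
      exact Fin.ext ((tiles_nodup n hdet).getElem_inj_iff.1 h2)
    · intro τ
      obtain ⟨k, hk, h⟩ := List.getElem_of_mem ((mem_tiles_iff n _).2 ⟨τ, rfl⟩)
      refine ⟨⟨k, hk⟩, qd_inj n hdet ?_⟩
      rw [← hφ]
      exact h
  have hL : ∀ k, (VHG.tilesOf (tiles (dat K) (num F) n)).L k =
      icode (VHC.enc F n) ((S K (F.mach n) 0).L (φ k)) := fun k => congrArg (fun q => q.1) (hφ k)
  have hR : ∀ k, (VHG.tilesOf (tiles (dat K) (num F) n)).R k =
      icode (VHC.enc F n) ((S K (F.mach n) 0).R (φ k)) := fun k => congrArg (fun q => q.2.1) (hφ k)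
  have hB : ∀ k, (VHG.tilesOf (tiles (dat K) (num F) n)).B k =
      icode (VHC.enc F n) ((S K (F.mach n) 0).B (φ k)) := fun k => congrArg (fun q => q.2.2.1) (hφ k)
  have hU : ∀ k, (VHG.tilesOf (tiles (dat K) (num F) n)).U k =
      icode (VHC.enc F n) ((S K (F.mach n) 0).U (φ k)) := fun k => congrArg (fun q => q.2.2.2) (hφ k)
  have inj : ∀ X Y : Info K (F.mach n) 0, icode (VHC.enc F n) X = icode (VHC.enc F n) Y ↔ X = Y :=
    fun X Y => ⟨fun h => icode_inj (enc_inj F n) h, fun h => congrArg _ h⟩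
  exact ⟨{
    φ := Equiv.ofBijective φ hb
    RL := fun i j => by rw [hR, hL]; exact inj _ _
    RR := fun i j => by rw [hR, hR]; exact inj _ _
    LL := fun i j => by rw [hL, hL]; exact inj _ _
    UB := fun i j => by rw [hU, hB]; exact inj _ _
    UU := fun i j => by rw [hU, hU]; exact inj _ _
    BB := fun i j => by rw [hB, hB]; exact inj _ _ }⟩

/-- **Main theorem of VHC.** -/
theorem enc_thm (K : Skel) (F : Fam) : ∃ G : ℕ → List (ℕ × ℕ × ℕ × ℕ), Computable G ∧
    ∀ n, Nonempty (Enc (G n) (VHS.S K (F.mach n) 0)) :=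
  ⟨tiles (dat K) (num F), tiles_comp (dat K) (num_co F), fun n => enc_of_det K F n (det K _ 0)⟩

end Pool.Agent.VHC
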