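import Mathlib

/-!
# VHC/Enum : primitive recursive enumeration of a family of finite tile lists

helper26, for `MP_720b7c_al`.  Data: a finite set `C` of shapes; a tile is a pair `(c, v)` where `v` is
a list of `ℓ` symbols (numbers `< m a`), subject to finitely many atomic conditions depending on `c`;
every side label is a pair (number depending on `c`, partial selection of entries of `v`).
-/

set_option autoImplicit false

namespace Pool.Agent.VHC

variable {α : Type} [Primcodable α]

/-- all lists of length `ℓ` with entries `< m` -/
def tup : ℕ → ℕ → List (List ℕ)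
  | 0, _ => [[]]
  | ℓ + 1, m => (tup ℓ m).flatMap fun l => (List.range m).map fun i => i :: l

theorem mem_tup {ℓ m : ℕ} : ∀ {l : List ℕ}, l ∈ tup ℓ m ↔ l.length = ℓ ∧ ∀ i ∈ l, i < m := by
  induction ℓ with
  | zero => intro l; simp [tup]; intro h; subst h; simp
  | succ ℓ ih =>
    intro l
    simp only [tup, List.mem_flatMap, List.mem_map, List.mem_range]
    constructor
    · rintro ⟨l', hl', i, hi, rfl⟩
      obtain ⟨h1, h2⟩ := ih.1 hl'
      refine ⟨by simp [h1], ?_⟩
      intro j hj
      rcases List.mem_cons.1 hj with rfl | hj
      · exact hi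
      · exact h2 j hj
    · rintro ⟨h1, h2⟩
      cases l with
      | nil => simp at h1
      | cons i l =>
        refine ⟨l, ih.2 ⟨by simpa using h1, fun j hj => h2 j (List.mem_cons_of_mem _ hj)⟩, i,
          h2 i List.mem_cons_self, rfl⟩

theorem nodup_tup (ℓ m : ℕ) : (tup ℓ m).Nodup := by
  induction ℓ with
  | zero => simp [tup]
  | succ ℓ ih =>
    rw [tup, List.nodup_flatMap]
    constructor
    · intro l _
      exact (List.nodup_range).map (fun i j h => by simpa using (List.cons.inj h).1)
    · refine ih.imp ?_
      intro l l' hne
      rw [Function.onFun, List.disjoint_left]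
      intro x hx hx'
      simp only [List.mem_map] at hx hx'
      obtain ⟨i, _, rfl⟩ := hx
      obtain ⟨j, _, h⟩ := hx'
      exact hne (List.cons.inj h).2.symm

theorem tup_primrec (ℓ : ℕ) : Primrec (tup ℓ) := by
  induction ℓ with
  | zero => exact Primrec.const _
  | succ ℓ ih =>
    refine Primrec.list_flatMap ih ?_
    refine Primrec.list_map (Primrec.list_range.comp Primrec.fst) ?_
    exact Primrec.list_cons.comp Primrec.snd (Primrec.snd.comp Primrec.fst)

/-- atomic conditions on the symbols -/
inductive Atom
  | dfl (i : ℕ)
  | bd (i : ℕ)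
  | D (i : ℕ)
  | H (i j : ℕ)
  | V (i j : ℕ)

/-- a family of numeric machines -/
structure Num (α : Type) where
  m : α → ℕ
  dfl : α → ℕ
  bd : α → ℕ
  D : α → ℕ → Bool
  H : α → ℕ → ℕ → Bool
  V : α → ℕ → ℕ → Bool

structure Num.Co (N : Num α) : Prop where
  m : Computable N.m
  dfl : Computable N.dfl
  bd : Computable N.bd
  D : Computable fun q : α × ℕ => N.D q.1 q.2
  H : Computable fun q : α × ℕ × ℕ => N.H q.1 q.2.1 q.2.2
  V : Computable fun q : α × ℕ × ℕ => N.V q.1 q.2.1 q.2.2

/-- an atomic condition for the list `l` of symbols -/
def holds (N : Num α) (a : α) (l : List ℕ) : Atom → Bool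
  | .dfl i => l.getD i 0 == N.dfl a
  | .bd i => l.getD i 0 == N.bd a
  | .D i => N.D a (l.getD i 0)
  | .H i j => N.H a (l.getD i 0) (l.getD j 0)
  | .V i j => N.V a (l.getD i 0) (l.getD j 0)

theorem getD_comp (i : ℕ) : Computable fun x : α × List ℕ => x.2.getD i 0 :=
  ((Primrec.list_getD 0).comp Primrec.snd (Primrec.const i)).to_comp

theorem holds_comp {N : Num α} (hN : N.Co) (A : Atom) :
    Computable fun x : α × List ℕ => holds N x.1 x.2 A := by
  cases A with
  | dfl i => exact Primrec.beq.to_comp.comp (getD_comp i) (hN.dfl.comp Computable.fst)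
  | bd i => exact Primrec.beq.to_comp.comp (getD_comp i) (hN.bd.comp Computable.fst)
  | D i => exact hN.D.comp (Computable.fst.pair (getD_comp i))
  | H i j => exact hN.H.comp (Computable.fst.pair ((getD_comp i).pair (getD_comp j)))
  | V i j => exact hN.V.comp (Computable.fst.pair ((getD_comp i).pair (getD_comp j)))

theorem all_comp {N : Num α} (hN : N.Co) (L : List Atom) :
    Computable fun x : α × List ℕ => L.all fun A => holds N x.1 x.2 A := by
  induction L with
  | nil => exact Computable.const true
  | cons A L ih => exact Primrec.and.to_comp.comp (holds_comp hN A) ih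

/-- filtering a list with a computable predicate -/
theorem filter_comp {β : Type} [Primcodable β] {L : α → List β} {p : α → β → Bool}
    (hL : Computable L) (hp : Computable fun x : α × β => p x.1 x.2) :
    Computable fun a => (L a).filter (p a) := by
  have key : ∀ (l : List β) (q : β → Bool) (k : ℕ),
      (Nat.rec (motive := fun _ => List β) [] (fun i acc =>
        Option.casesOn (motive := fun _ => List β) (l[i]?) acc fun b => cond (q b) (acc ++ [b]) acc) k)
        = (l.take k).filter q := by
    intro l q k
    induction k with
    | zero => simp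
    | succ k ih =>
      rw [List.take_add_one, List.filter_append, ← ih]
      cases h : l[k]? with
      | none => simp [h]
      | some b => cases hq : q b <;> simp [h, hq]
  have h1 : Computable fun a => Nat.rec (motive := fun _ => List β) [] (fun i acc =>
        Option.casesOn (motive := fun _ => List β) ((L a)[i]?) acc
          fun b => cond (p a b) (acc ++ [b]) acc) (L a).length := by
    refine Computable.nat_rec (f := fun a => (L a).length) (g := fun _ => [])
      (h := fun a (q : ℕ × List β) => Option.casesOn (motive := fun _ => List β) ((L a)[q.1]?) q.2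
          fun b => cond (p a b) (q.2 ++ [b]) q.2)
      (Computable.list_length.comp hL) (Computable.const []) ?_
    have hL' : Computable fun x : α × ℕ × List β => L x.1 := hL.comp Computable.fst
    have hi : Computable fun x : α × ℕ × List β => x.2.1 := Computable.fst.comp Computable.snd
    have ha : Computable fun x : α × ℕ × List β => x.2.2 := Computable.snd.comp Computable.snd
    refine Computable.option_casesOn (Computable.list_getElem?.comp hL' hi) ha ?_
    have hb : Computable fun x : (α × ℕ × List β) × β => x.2 := Computable.snd
    have ha' : Computable fun x : (α × ℕ × List β) × β => x.1.2.2 := ha.comp Computable.fst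
    have hx : Computable fun x : (α × ℕ × List β) × β => p x.1.1 x.2 :=
      hp.comp ((Computable.fst.comp Computable.fst).pair Computable.snd)
    exact Computable.cond hx (Computable.list_append.comp ha'
      (Computable.list_cons.comp hb (Computable.const []))) ha'
  refine h1.of_eq ?_
  intro a
  rw [key, List.take_length]

/-- a label: number and partial selection -/
def lcode (s : ℕ × List (Option ℕ)) (l : List ℕ) : ℕ :=
  Nat.pair s.1 (Encodable.encode (s.2.map fun o => o.map fun i => l.getD i 0))

theorem lcode_primrec (s : ℕ × List (Option ℕ)) : Primrec (lcode s) := by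
  have h : ∀ L : List (Option ℕ), Primrec fun l : List ℕ =>
      L.map fun o => o.map fun i => l.getD i 0 := by
    intro L
    induction L with
    | nil => exact Primrec.const _
    | cons o L ih =>
      refine Primrec.list_cons.comp ?_ ih
      cases o with
      | none => exact Primrec.const _
      | some i => exact Primrec.option_some.comp ((Primrec.list_getD 0).comp Primrec.id
          (Primrec.const i))
  exact Primrec₂.natPair.comp (Primrec.const s.1) (Primrec.encode.comp (h s.2))

/-- finite data of the family -/
structure Data where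
  /-- number of shapes -/
  n : ℕ
  /-- number of symbols of a tile -/
  ℓ : ℕ
  cond : Fin n → List Atom
  /-- the four labels -/
  lab : Fin n → Fin 4 → ℕ × List (Option ℕ)

/-- the quadruple of a shape and a list of symbols -/
def quad (X : Data) (c : Fin X.n) (l : List ℕ) : ℕ × ℕ × ℕ × ℕ :=
  (lcode (X.lab c 0) l, lcode (X.lab c 1) l, lcode (X.lab c 2) l, lcode (X.lab c 3) l)

/-- the list of tiles -/
def tiles (X : Data) (N : Num α) (a : α) : List (ℕ × ℕ × ℕ × ℕ) :=
  (List.finRange X.n).flatMap fun c =>
    ((tup X.ℓ (N.m a)).filter fun l => (X.cond c).all fun A => holds N a l A).map (quad X c)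

theorem tiles_comp (X : Data) {N : Num α} (hN : N.Co) : Computable (tiles X N) := by
  unfold tiles
  have h : ∀ L : List (Fin X.n), Computable fun a : α => L.flatMap fun c =>
      ((tup X.ℓ (N.m a)).filter fun l => (X.cond c).all fun A => holds N a l A).map (quad X c) := by
    intro L
    induction L with
    | nil => exact Computable.const _
    | cons c L ih =>
      simp only [List.flatMap_cons]
      refine Computable.list_append.comp ?_ ih
      have hq : Primrec fun l : List (List ℕ) => l.map (quad X c) := by
        refine Primrec.list_map Primrec.id ?_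
        unfold quad
        have := fun i => (lcode_primrec (X.lab c i)).comp
          (Primrec.snd (α := List (List ℕ)) (β := List ℕ))
        exact (this 0).pair ((this 1).pair ((this 2).pair (this 3)))
      refine hq.to_comp.comp ?_
      exact filter_comp ((tup_primrec X.ℓ).to_comp.comp hN.m) (all_comp hN _)
  exact h _

/-- the valid lists of symbols -/
def Good (N : Num α) (L : List Atom) (a : α) (l : List ℕ) : Prop := ∀ A ∈ L, holds N a l A = true

omit [Primcodable α] in
theorem mem_tiles {X : Data} {N : Num α} {a : α} {q : ℕ × ℕ × ℕ × ℕ} :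
    q ∈ tiles X N a ↔ ∃ (c : Fin X.n) (l : List ℕ), l.length = X.ℓ ∧ (∀ i ∈ l, i < N.m a) ∧
      Good N (X.cond c) a l ∧ quad X c l = q := by
  unfold tiles Good
  simp only [List.mem_flatMap, List.mem_finRange, true_and, List.mem_map, List.mem_filter, mem_tup,
    List.all_eq_true]
  constructor
  · rintro ⟨c, l, ⟨⟨h1, h2⟩, h3⟩, h4⟩
    exact ⟨c, l, h1, h2, h3, h4⟩
  · rintro ⟨c, l, h1, h2, h3, h4⟩
    exact ⟨c, l, ⟨⟨h1, h2⟩, h3⟩, h4⟩

omit [Primcodable α] in
theorem nodup_tiles {X : Data} {N : Num α} {a : α}
    (inj : ∀ (c c' : Fin X.n) (l l' : List ℕ), l.length = X.ℓ → (∀ i ∈ l, i < N.m a) →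
      Good N (X.cond c) a l → l'.length = X.ℓ → (∀ i ∈ l', i < N.m a) → Good N (X.cond c') a l' →
      quad X c l = quad X c' l' → c = c' ∧ l = l') : (tiles X N a).Nodup := by
  unfold tiles
  rw [List.nodup_flatMap]
  constructor
  · intro c _
    refine List.Nodup.map_on ?_ ((nodup_tup _ _).filter _)
    intro l hl l' hl' h
    simp only [List.mem_filter, mem_tup, List.all_eq_true] at hl hl'
    exact (inj c c l l' hl.1.1 hl.1.2 hl.2 hl'.1.1 hl'.1.2 hl'.2 h).2
  · refine (List.nodup_finRange X.n).imp ?_
    intro c c' hne
    rw [Function.onFun, List.disjoint_left]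
    intro q hq hq'
    simp only [List.mem_map, List.mem_filter, mem_tup, List.all_eq_true] at hq hq'
    obtain ⟨l, hl, rfl⟩ := hq
    obtain ⟨l', hl', h⟩ := hq'
    exact hne (inj c c' l l' hl.1.1 hl.1.2 hl.2 hl'.1.1 hl'.1.2 hl'.2 h.symm).1

end Pool.Agent.VHC
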