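import Pool.Agent.VHS.Defs

/-!
# VHC/Shape : tiles of level `0` as pairs (shape, symbols)

helper26, for `MP_720b7c_al`.
-/

set_option autoImplicit false

open scoped Classical

namespace Pool.Agent.VHC

open Pool.Agent.VHS

variable (K : Skel)

/-- the finite part of a tile of level `0` -/
abbrev Sh : Type := K.Ty × P × (K.Sl → P × K.Ty)

/-- the places of the symbols: `(some c, x)` symbol `x` of the header in slot `c`, `(none, x)` own
symbol -/
abbrev Ix : Type := Option K.Sl × K.Sl

variable {K}

/-- the tile with given shape and symbols -/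
def mk (M : Mach) (c : Sh K) (v : Ix K → M.A) : Tile K M 0 where
  th := c.1
  p := c.2.1
  ct x := ⟨(c.2.2 x).1, (c.2.2 x).2, fun y => v (some x, y)⟩
  b _ r := r.elim0
  e y := v (none, y)

/-- shape of a tile -/
def sh {M : Mach} (τ : Tile K M 0) : Sh K := (τ.th, τ.p, fun x => ((τ.ct x).pos, (τ.ct x).ty))

/-- symbols of a tile -/
def sy {M : Mach} (τ : Tile K M 0) : Ix K → M.A
  | (some x, y) => (τ.ct x).a y
  | (none, y) => τ.e y

@[simp] theorem mk_sh_sy {M : Mach} (τ : Tile K M 0) : mk M (sh τ) (sy τ) = τ := by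
  apply Tile.ext
  · rfl
  · rfl
  · rfl
  · funext x r; exact r.elim0
  · rfl

@[simp] theorem sh_mk {M : Mach} (c : Sh K) (v : Ix K → M.A) : sh (mk M c v) = c := rfl

@[simp] theorem sy_mk {M : Mach} (c : Sh K) (v : Ix K → M.A) : sy (mk M c v) = v := by
  funext i
  obtain ⟨o, y⟩ := i
  cases o <;> rfl

/-- position and type of the header `o` of a shape (`none`: the tile itself) -/
def hd (c : Sh K) : Option K.Sl → P × K.Ty
  | none => (c.2.1, c.1)
  | some x => c.2.2 x

/-- shape part of `HV` -/
def HVs (c : Sh K) (o : Option K.Sl) : Prop :=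
  ∀ d, (K.lam d (hd c o).2).isSome = onS d (hd c o).1

/-- shape part of `Rel` -/
structure Rels (c : Sh K) (o : Option K.Sl) (x : K.Sl) : Prop where
  lam : ∀ d, K.lam d (hd c o).2 = some x → onS d (hd c (some x)).1 = false
  new : ∀ d, K.new d (hd c o).2 x → onS d (hd c (some x)).1 = true
  gam : ∀ d d' g, K.lam d (hd c o).2 = some x → K.gam d d' (hd c o).2 = some g →
    K.par (hd c (some x)).2 = g
  typ : K.par (hd c o).2 = x → (hd c o).2 = K.sg (hd c (some x)).2 (hd c o).1

/-- shape part of validity -/
structure Shok (c : Sh K) : Prop where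
  hv_own : HVs c none
  hv : ∀ x, x ≠ K.mis c.1 → HVs c (some x)
  rel_own : ∀ x, x ≠ K.mis c.1 → Rels c none x
  rel : ∀ x x', K.old c.1 x x' → Rels c (some x) x'
  ct_mis : c.2.2 (K.mis c.1) = ((0, 0), c.1)

/-- next level -/
def nxs (c : Sh K) (x x' : K.Sl) : Prop := K.old c.1 x x' ∧ K.par (c.2.2 x).2 = x'

/-- atomic conditions on the symbols -/
inductive At (ι : Type)
  | dfl (i : ι)
  | bd (i : ι)
  | D (i : ι)
  | H (i j : ι)
  | V (i j : ι)

/-- an atomic condition -/
def HoldM (M : Mach) {ι : Type} (v : ι → M.A) : At ι → Prop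
  | .dfl i => v i = M.dfl
  | .bd i => v i = M.bd
  | .D i => M.D (v i)
  | .H i j => M.H (v i) (v j)
  | .V i j => M.V (v i) (v j)

/-- the atomic conditions of a shape -/
inductive Need (c : Sh K) : At (Ix K) → Prop
  | own_dfl (y) : ¬ K.low c.1 y → Need c (.dfl (none, y))
  | own_diag : Need c (.D (none, K.par c.1))
  | hv_dfl (x y) : x ≠ K.mis c.1 → ¬ K.low (c.2.2 x).2 y → Need c (.dfl (some x, y))
  | hv_diag (x) : x ≠ K.mis c.1 → Need c (.D (some x, K.par (c.2.2 x).2))
  | own_hh (x y) : x ≠ K.mis c.1 → K.par c.1 = x → y ≠ K.mis c.1 → y ≠ x → K.low c.1 y →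
      K.low (c.2.2 x).2 y → Need c (.H (none, y) (some x, y))
  | hh (x x' y) : K.old c.1 x x' → K.par (c.2.2 x).2 = x' → y ≠ K.mis (c.2.2 x).2 → y ≠ x' →
      K.low (c.2.2 x).2 y → K.low (c.2.2 x').2 y → Need c (.H (some x, y) (some x', y))
  | v_own (x x') : nxs c x x' → K.low c.1 x → K.low c.1 x' → Need c (.V (none, x) (none, x'))
  | v (i x x') : K.old c.1 i x → nxs c x x' → K.low (c.2.2 i).2 x → K.low (c.2.2 i).2 x' →
      Need c (.V (some i, x) (some i, x'))
  | e_zero (y) : K.low c.1 y → Need c (.bd (none, y))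
  | ct_mis (y) : Need c (.dfl (some (K.mis c.1), y))

theorem val_iff (M : Mach) (c : Sh K) (v : Ix K → M.A) :
    Val (mk M c v) ↔ Shok c ∧ ∀ A, Need c A → HoldM M v A := by
  constructor
  · intro h
    refine ⟨⟨fun d => h.hv_own.side d, fun x hx d => (h.hv x hx).side d, ?_, ?_, ?_⟩, ?_⟩
    · intro x hx
      have r := h.rel_own x hx
      exact ⟨r.lam, r.new, r.gam, r.typ⟩
    · intro x x' hx
      have r := h.rel x x' hx
      exact ⟨r.lam, r.new, r.gam, r.typ⟩
    · have := h.ct_mis
      exact Prod.ext (congrArg Hdr.pos this) (congrArg Hdr.ty this)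
    · intro A hA
      cases hA with
      | own_dfl y hy => exact h.hv_own.dfl y hy
      | own_diag => exact h.hv_own.diag
      | hv_dfl x y hx hy => exact (h.hv x hx).dfl y hy
      | hv_diag x hx => exact (h.hv x hx).diag
      | own_hh x y hx h1 h2 h3 h4 h5 => exact (h.rel_own x hx).hh h1 y h2 h3 h4 h5
      | hh x x' y hx h1 h2 h3 h4 h5 => exact (h.rel x x' hx).hh h1 y h2 h3 h4 h5
      | v_own x x' hn h1 h2 => exact h.v_own x x' hn h1 h2
      | v i x x' hi hn h1 h2 => exact h.v i x x' hi hn h1 h2
      | e_zero y hy => exact h.e_zero y rfl hy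
      | ct_mis y =>
        have := congrFun (congrArg Hdr.a h.ct_mis) y
        exact this
  · rintro ⟨s, h⟩
    constructor
    · exact ⟨s.hv_own, fun y hy => h _ (.own_dfl y hy), h _ .own_diag⟩
    · intro x hx
      exact ⟨s.hv x hx, fun y hy => h _ (.hv_dfl x y hx hy), h _ (.hv_diag x hx)⟩
    · intro x hx
      have r := s.rel_own x hx
      exact ⟨r.lam, r.new, r.gam, r.typ, fun h1 y h2 h3 h4 h5 => h _ (.own_hh x y hx h1 h2 h3 h4 h5)⟩
    · intro x x' hx
      have r := s.rel x x' hx
      exact ⟨r.lam, r.new, r.gam, r.typ, fun h1 y h2 h3 h4 h5 => h _ (.hh x x' y hx h1 h2 h3 h4 h5)⟩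
    · intro x x' hn h1 h2
      exact h _ (.v_own x x' hn h1 h2)
    · intro i x x' hi hn h1 h2
      exact h _ (.v i x x' hi hn h1 h2)
    · intro x x' r; exact r.elim0
    · intro x r; exact r.elim0
    · intro y _ hy; exact h _ (.e_zero y hy)
    · intro x r; exact r.elim0
    · intro x r; exact r.elim0
    · exact M.alive_one
    · intro r; exact r.elim0
    · show v (none, K.par c.1) = M.I 0 1
      rw [M.I_zero 1 one_pos M.alive_one]
      exact h _ (.e_zero _ (K.low_par _))
    · show (mk M c v).ct (K.mis c.1) = dflHdr K M c.1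
      have h1 := s.ct_mis
      apply Hdr.ext
      · show (c.2.2 (K.mis c.1)).1 = (0, 0)
        rw [h1]
      · show (c.2.2 (K.mis c.1)).2 = c.1
        rw [h1]
      · funext y
        exact h _ (.ct_mis y)
    · intro r; exact r.elim0

/-! ### labels -/

/-- change of the symbols of an information -/
def mapI {M M' : Mach} (φ : M.A → M'.A) (X : Info K M 0) : Info K M' 0 where
  pos := X.pos
  ty := X.ty
  ct c := (X.ct c).map fun h => ⟨h.pos, h.ty, fun y => φ (h.a y)⟩
  lp := X.lp
  lg := X.lg
  la c := (X.la c).map φ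
  b c := (X.b c).map fun f r => φ (f r)
  e c := (X.e c).map φ

theorem ite_map {A B : Type} (φ : A → B) {p : Prop} [Decidable p] {a : A} {a' : B} (h : a' = φ a) :
    (if p then some a' else none) = Option.map φ (if p then some a else none) := by
  split_ifs <;> simp [h]

theorem ite_map' {A B : Type} (φ : A → B) {p : Prop} [Decidable p] {a : A} {a' : B} (h : a' = φ a) :
    (if p then none else some a') = Option.map φ (if p then none else some a) := by
  split_ifs <;> simp [h]

theorem inf_nat {M M' : Mach} (φ : M.A → M'.A) (d : Side) (c : Sh K) (v : Ix K → M.A) :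
    inf d (mk M' c (fun i => φ (v i))) = mapI φ (inf d (mk M c v)) := by
  have hb : ∀ x, (mk M' c (fun i => φ (v i))).b x = fun r => φ ((mk M c v).b x r) := by
    intro x; funext r; exact r.elim0
  have hlg : (mk M' c (fun i => φ (v i))).lgv d = (mk M c v).lgv d := rfl
  by_cases hp : onS d c.2.1 = true
  · have h1 : onS d (mk M' c (fun i => φ (v i))).p = true := hp
    have h2 : onS d (mk M c v).p = true := hp
    unfold inf
    rw [if_pos h1, if_pos h2]
    apply Info.ext
    · rfl
    · rfl
    · funext x
      exact ite_map' _ rfl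
    · rfl
    · rfl
    · funext x
      show Tile.lav _ _ _ = Option.map _ (Tile.lav _ _ _)
      unfold Tile.lav
      rw [hlg]
      show (match K.lam d c.1, (mk M c v).lgv d with
        | some l, some g => _
        | _, _ => _) = Option.map φ (match K.lam d c.1, (mk M c v).lgv d with
        | some l, some g => _
        | _, _ => _)
      cases h3 : K.lam d c.1 with
      | none => rfl
      | some l =>
        cases h4 : (mk M c v).lgv d with
        | none => rfl
        | some g =>
          exact ite_map _ rfl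
    · funext x
      exact ite_map' _ (hb x)
    · funext x
      exact ite_map _ rfl
  · have h1 : ¬ onS d (mk M' c (fun i => φ (v i))).p = true := hp
    have h2 : ¬ onS d (mk M c v).p = true := hp
    unfold inf
    rw [if_neg h1, if_neg h2]
    apply Info.ext
    · rfl
    · rfl
    · funext x
      exact ite_map' _ rfl
    · rfl
    · rfl
    · rfl
    · funext x
      exact ite_map' _ (hb x)
    · funext x
      exact ite_map _ rfl

theorem cv_nat {M M' : Mach} (φ : M.A → M'.A) (d : Side) (X : Info K M 0) :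
    cv d (mapI φ X) = mapI φ (cv d X) := by
  by_cases hp : onS d X.pos = true
  · have h1 : onS d (mapI φ X).pos = true := hp
    unfold cv
    rw [if_pos h1, if_pos hp]
    apply Info.ext
    · rfl
    · rfl
    · funext x
      show Option.map _ (Option.map _ (X.ct (sw K d X.ty x))) =
        Option.map _ (Option.map _ (X.ct (sw K d X.ty x)))
      rw [Option.map_map, Option.map_map]
      congr 1
      funext h
      show (if K.new d X.ty x then _ else _) = _
      simp only [Function.comp]
      by_cases hx : K.new d X.ty x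
      · rw [if_pos hx, if_pos hx]; rfl
      · rw [if_neg hx, if_neg hx]
    · rfl
    · rfl
    · rfl
    · rfl
    · rfl
  · have h1 : ¬ onS d (mapI φ X).pos = true := hp
    unfold cv
    rw [if_neg h1, if_neg hp]
    rfl

end Pool.Agent.VHC
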