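import Pool.Agent.VHC.Enum
import Pool.Agent.VHC.Shape
import Pool.Agent.VHM.Fam

/-!
# VHC/Tile : the tile sets `S K (M a) 0` of a numeric machine family form a primitive recursive family
of lists of quadruples

helper26, for `MP_720b7c_al`.
-/

set_option autoImplicit false

open scoped Classical

namespace Pool.Agent.VHC

open Pool.Agent.VHS
open Pool.Agent.VHD (Tiles)
open Pool.Agent.VHM (Fam)

/-- a machine with arbitrary alphabet -/
def trivM (A : Type) [Finite A] (x0 : A) : Mach where
  A := A
  finA := inferInstance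
  dfl := x0
  bd := x0
  H := fun _ _ => False
  V := fun _ _ => False
  D := fun _ => True
  I := fun _ _ => x0
  alive := fun t => t ≤ 1
  alive_one := le_rfl
  alive_mono := fun t h => by omega
  I_zero := fun _ _ _ => rfl
  I_H := fun r t h h' => by omega
  I_V := fun r t h h' => by omega
  I_D := fun _ _ => trivial
  uniq := fun t h h' f _ _ h3 _ => (h3 0 h).elim

variable {K : Skel}

instance : Finite K.Ty := K.finTy
instance : Finite K.Sl := K.finSl

/-- positions of symbols in an information -/
abbrev PT (K : Skel) : Type := (K.Sl × K.Sl) ⊕ K.Sl ⊕ K.Sl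

noncomputable instance : Fintype (PT K) := Fintype.ofFinite _

/-- the symbols of an information -/
def symI {M : Mach} (X : Info K M 0) : PT K → Option M.A
  | Sum.inl (c, y) => (X.ct c).map fun h => h.a y
  | Sum.inr (Sum.inl y) => X.la y
  | Sum.inr (Sum.inr y) => X.e y

/-- the finite part of an information -/
def shapeI {M : Mach} (X : Info K M 0) : Info K (trivM Unit ()) 0 := mapI (fun _ => ()) X

theorem symI_map {M M' : Mach} (φ : M.A → M'.A) (X : Info K M 0) (j : PT K) :
    symI (mapI φ X) j = (symI X j).map φ := by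
  rcases j with ⟨c, y⟩ | y | y
  · exact (Option.map_map _ _ (X.ct c)).trans
      (Option.map_map φ (fun h : Hdr K M => h.a y) (X.ct c)).symm
  · rfl
  · rfl

theorem shapeI_map {M M' : Mach} (φ : M.A → M'.A) (X : Info K M 0) :
    shapeI (mapI φ X) = shapeI X := by
  apply Info.ext
  · rfl
  · rfl
  · funext c
    exact Option.map_map _ _ _
  · rfl
  · rfl
  · funext c
    exact Option.map_map _ _ _
  · funext c
    exact Option.map_map _ _ _
  · funext c
    exact Option.map_map _ _ _

theorem info_ext {M : Mach} {X Y : Info K M 0} (h : shapeI X = shapeI Y)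
    (h' : ∀ j, symI X j = symI Y j) : X = Y := by
  apply Info.ext
  · exact congrArg (fun Z => Z.pos) h
  · exact congrArg (fun Z => Z.ty) h
  · funext c
    have h1 : (X.ct c).map _ = (Y.ct c).map _ := congrFun (congrArg (fun Z => Z.ct) h) c
    have h2 : ∀ y, (X.ct c).map _ = (Y.ct c).map _ := fun y => h' (Sum.inl (c, y))
    cases hx : X.ct c with
    | none =>
      cases hy : Y.ct c with
      | none => rfl
      | some k => rw [hx, hy] at h1; simp at h1
    | some g =>
      cases hy : Y.ct c with
      | none => rw [hx, hy] at h1; simp at h1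
      | some k =>
        rw [hx, hy] at h1 h2
        simp only [Option.map_some, Option.some.injEq, Hdr.mk.injEq] at h1 h2
        congr 1
        exact Hdr.ext h1.1 h1.2.1 (funext h2)
  · exact congrArg (fun Z => Z.lp) h
  · exact congrArg (fun Z => Z.lg) h
  · funext y; exact h' (Sum.inr (Sum.inl y))
  · funext c
    have h1 : (X.b c).map _ = (Y.b c).map _ := congrFun (congrArg (fun Z => Z.b) h) c
    cases hx : X.b c with
    | none =>
      cases hy : Y.b c with
      | none => rfl
      | some k => rw [hx, hy] at h1; simp at h1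
    | some g =>
      cases hy : Y.b c with
      | none => rw [hx, hy] at h1; simp at h1
      | some k =>
        congr 1
        funext r
        exact r.elim0
  · funext y; exact h' (Sum.inr (Sum.inr y))

instance finI : Finite (Info K (trivM Unit ()) 0) := by
  let A : Type := (trivM Unit ()).A
  have : Finite A := (inferInstance : Finite Unit)
  let f : Info K (trivM Unit ()) 0 → P × K.Ty × (K.Sl → Option (P × K.Ty)) × Option P × Option K.Sl ×
      (K.Sl → Option A) × (K.Sl → Option (Fin 0 → A)) × (K.Sl → Option A) :=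
    fun X => (X.pos, X.ty, fun c => (X.ct c).map fun h => (h.pos, h.ty), X.lp, X.lg, X.la, X.b, X.e)
  refine Finite.of_injective f ?_
  intro X Y h
  simp only [f, Prod.mk.injEq] at h
  obtain ⟨h1, h2, h3, h4, h5, h6, h7, h8⟩ := h
  apply Info.ext h1 h2 ?_ h4 h5 h6 h7 h8
  funext c
  have h3 := congrFun h3 c
  cases hx : X.ct c with
  | none =>
    cases hy : Y.ct c with
    | none => rfl
    | some k => rw [hx, hy] at h3; simp at h3
  | some g =>
    cases hy : Y.ct c with
    | none => rw [hx, hy] at h3; simp at h3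
    | some k =>
      rw [hx, hy] at h3
      simp only [Option.map_some, Option.some.injEq, Prod.mk.injEq] at h3
      congr 1
      exact Hdr.ext h3.1 h3.2 (funext fun _ => rfl)

/-- number of a finite part -/
noncomputable def idx (X : Info K (trivM Unit ()) 0) : ℕ := (Finite.equivFin _ X).val

theorem idx_inj {X Y : Info K (trivM Unit ()) 0} (h : idx X = idx Y) : X = Y :=
  (Finite.equivFin _).injective (Fin.ext h)

/-- number of an information -/
noncomputable def icode {M : Mach} (enc : M.A → ℕ) (X : Info K M 0) : ℕ :=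
  Nat.pair (idx (shapeI X)) (Encodable.encode
    ((Finset.univ : Finset (PT K)).toList.map fun j => (symI X j).map enc))

theorem icode_inj {M : Mach} {enc : M.A → ℕ} (he : Function.Injective enc) {X Y : Info K M 0}
    (h : icode enc X = icode enc Y) : X = Y := by
  unfold icode at h
  rw [Nat.pair_eq_pair] at h
  apply info_ext (idx_inj h.1)
  intro j
  have h2 := Encodable.encode_injective h.2
  rw [List.map_inj_left] at h2
  have h3 := h2 j (by simp)
  exact Option.map_injective he h3

/-- index of a place -/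
noncomputable def eL : Ix K ≃ Fin (Nat.card (Ix K)) := Finite.equivFin _

/-- selection list of an information over `Ix K` -/
noncomputable def selI {x0 : Ix K} (X : Info K (trivM (Ix K) x0) 0) : ℕ × List (Option ℕ) :=
  (idx (shapeI X), (Finset.univ : Finset (PT K)).toList.map fun j =>
    (symI X j).map fun i : Ix K => (eL i).val)

/-- the list of numbers of a family of symbols -/
noncomputable def lst {A : Type} (enc : A → ℕ) (v : Ix K → A) : List ℕ :=
  List.ofFn fun k : Fin (Nat.card (Ix K)) => enc (v (eL.symm k))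

theorem lst_getD {A : Type} (enc : A → ℕ) (v : Ix K → A) (i : Ix K) :
    (lst enc v).getD (eL i).val 0 = enc (v i) := by
  unfold lst
  rw [List.getD_eq_getElem _ _ (by rw [List.length_ofFn]; exact (eL i).2)]
  simp

theorem lst_length {A : Type} (enc : A → ℕ) (v : Ix K → A) :
    (lst enc v).length = Nat.card (Ix K) := by
  simp [lst]

theorem mem_lst {A : Type} {enc : A → ℕ} {v : Ix K → A} {n : ℕ} (h : n ∈ lst enc v) :
    ∃ i, n = enc (v i) := by
  simp only [lst, List.mem_ofFn] at h
  obtain ⟨k, hk⟩ := h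
  exact ⟨_, hk.symm⟩

theorem icode_map {M : Mach} {x0 : Ix K} (enc : M.A → ℕ) (v : Ix K → M.A)
    (X : Info K (trivM (Ix K) x0) 0) :
    icode enc (mapI (M := trivM (Ix K) x0) v X) = lcode (selI X) (lst enc v) := by
  unfold icode lcode selI
  rw [shapeI_map]
  congr 1
  congr 1
  rw [List.map_map]
  apply List.map_congr_left
  intro j _
  rw [symI_map]
  simp only [Function.comp]
  rw [Option.map_map, Option.map_map]
  congr 1
  funext i
  exact (lst_getD enc v i).symm

instance {ι : Type} [Finite ι] : Finite (At ι) := by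
  let f : At ι → (ι ⊕ ι ⊕ ι) ⊕ (ι × ι) ⊕ (ι × ι)
    | .dfl i => .inl (.inl i)
    | .bd i => .inl (.inr (.inl i))
    | .D i => .inl (.inr (.inr i))
    | .H i j => .inr (.inl (i, j))
    | .V i j => .inr (.inr (i, j))
  refine Finite.of_injective f ?_
  intro a b h
  cases a <;> cases b <;> simp_all [f]

/-- numeric form of an atomic condition -/
noncomputable def toAtom : At (Ix K) → Atom
  | .dfl i => .dfl (eL i).val
  | .bd i => .bd (eL i).val
  | .D i => .D (eL i).val
  | .H i j => .H (eL i).val (eL j).val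
  | .V i j => .V (eL i).val (eL j).val

/-- the list of the conditions of a shape -/
noncomputable def needL (c : Sh K) : List (At (Ix K)) :=
  (Set.toFinite {A : At (Ix K) | Need c A}).toFinset.toList

theorem mem_needL {c : Sh K} {A : At (Ix K)} : A ∈ needL c ↔ Need c A := by
  simp [needL]

variable (K) in
/-- a slot, and a place -/
noncomputable def x0 : Ix K := (none, K.mis (K.rt 0))

variable (K) in
/-- the machine with the places as symbols -/
noncomputable abbrev M0 : Mach := trivM (Ix K) (x0 K)

/-- the four labels of a shape -/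
noncomputable def J (c : Sh K) : Fin 4 → Info K (M0 K) 0
  | 0 => cv .L (inf .L (mk (M0 K) c id))
  | 1 => inf .R (mk (M0 K) c id)
  | 2 => cv .B (inf .B (mk (M0 K) c id))
  | 3 => inf .U (mk (M0 K) c id)

variable (K) in
/-- the finite data of the skeleton -/
noncomputable def dat : Data where
  n := Nat.card {c : Sh K // Shok c}
  ℓ := Nat.card (Ix K)
  cond k := (needL ((Finite.equivFin {c : Sh K // Shok c}).symm k).1).map toAtom
  lab k j := selI (J ((Finite.equivFin {c : Sh K // Shok c}).symm k).1 j)

variable (F : Fam)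

/-- the numeric family of a family of machines -/
def num : Num ℕ := ⟨F.size, F.dfl, F.bd, F.D, F.H, F.V⟩

theorem num_co : (num F).Co := ⟨F.size_c, F.dfl_c, F.bd_c, F.D_c, F.H_c, F.V_c⟩

/-- symbols as numbers -/
def enc (n : ℕ) : (F.mach n).A → ℕ := fun x => Fin.val (n := F.size n) x

theorem enc_inj (n : ℕ) : Function.Injective (enc F n) := Fin.val_injective

variable {F}

theorem hold_iff (n : ℕ) (v : Ix K → (F.mach n).A) (A : At (Ix K)) :
    holds (num F) n (lst (enc F n) v) (toAtom A) = true ↔ HoldM (F.mach n) v A := by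
  cases A with
  | dfl i =>
    simp only [toAtom, holds, HoldM, lst_getD, beq_iff_eq]
    exact ⟨fun h => Fin.ext h, fun h => congrArg (enc F n) h⟩
  | bd i =>
    simp only [toAtom, holds, HoldM, lst_getD, beq_iff_eq]
    exact ⟨fun h => Fin.ext h, fun h => congrArg (enc F n) h⟩
  | D i => simp only [toAtom, holds, HoldM, lst_getD]; exact Iff.rfl
  | H i j => simp only [toAtom, holds, HoldM, lst_getD]; exact Iff.rfl
  | V i j => simp only [toAtom, holds, HoldM, lst_getD]; exact Iff.rfl

/-- the quadruple of a tile -/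
noncomputable def qd {M : Mach} (enc : M.A → ℕ) (τ : T K M 0) : ℕ × ℕ × ℕ × ℕ :=
  (icode enc ((S K M 0).L τ), icode enc ((S K M 0).R τ), icode enc ((S K M 0).B τ),
    icode enc ((S K M 0).U τ))

theorem inf_mk {M : Mach} (c : Sh K) (v : Ix K → M.A) (d : Side) :
    inf d (mk M c v) = mapI (M := M0 K) v (inf d (mk (M0 K) c id)) :=
  inf_nat (M := M0 K) (M' := M) v d c id

theorem quad_qd {M : Mach} (enc : M.A → ℕ) (c : {c : Sh K // Shok c}) (v : Ix K → M.A)
    (h : Val (mk M c.1 v)) :
    quad (dat K) (Finite.equivFin _ c) (lst enc v) = qd enc (⟨mk M c.1 v, h⟩ : T K M 0) := by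
  have e : ∀ j : Fin 4, lcode ((dat K).lab (Finite.equivFin _ c) j) (lst enc v) =
      icode enc (mapI (M := M0 K) v (J c.1 j)) := by
    intro j
    rw [icode_map]
    congr 1
    show selI (J ((Finite.equivFin {c : Sh K // Shok c}).symm (Finite.equivFin _ c)).1 j) = _
    rw [Equiv.symm_apply_apply]
  unfold quad qd
  rw [e 0, e 1, e 2, e 3]
  show (icode enc (mapI (M := M0 K) v (cv .L (inf .L (mk (M0 K) c.1 id)))),
    icode enc (mapI (M := M0 K) v (inf .R (mk (M0 K) c.1 id))),
    icode enc (mapI (M := M0 K) v (cv .B (inf .B (mk (M0 K) c.1 id)))),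
    icode enc (mapI (M := M0 K) v (inf .U (mk (M0 K) c.1 id)))) =
    (icode enc (cv .L (inf .L (mk M c.1 v))), icode enc (inf .R (mk M c.1 v)),
      icode enc (cv .B (inf .B (mk M c.1 v))), icode enc (inf .U (mk M c.1 v)))
  rw [← cv_nat, ← cv_nat, ← inf_mk, ← inf_mk, ← inf_mk, ← inf_mk]

/-- valid lists of symbols come from tiles -/
theorem good_iff (n : ℕ) (c : {c : Sh K // Shok c}) (l : List ℕ) :
    (l.length = (dat K).ℓ ∧ (∀ i ∈ l, i < (num F).m n) ∧
      Good (num F) ((dat K).cond (Finite.equivFin _ c)) n l) ↔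
    ∃ v : Ix K → (F.mach n).A, Val (mk (F.mach n) c.1 v) ∧ l = lst (enc F n) v := by
  have e : (dat K).cond (Finite.equivFin _ c) = (needL c.1).map toAtom := by
    show (needL ((Finite.equivFin {c : Sh K // Shok c}).symm (Finite.equivFin _ c)).1).map toAtom = _
    rw [Equiv.symm_apply_apply]
  rw [e]
  constructor
  · rintro ⟨h1, h2, h4⟩
    have hl : ∀ i : Ix K, (eL i).val < l.length := by
      intro i; rw [h1]; exact (eL i).2
    have h5 : ∀ i : Ix K, ∃ x : (F.mach n).A, enc F n x = l.getD (eL i).val 0 := by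
      intro i
      rw [List.getD_eq_getElem _ _ (hl i)]
      exact ⟨⟨_, h2 _ (List.getElem_mem (hl i))⟩, rfl⟩
    choose v hv using h5
    have hlv : l = lst (enc F n) v := by
      apply List.ext_getElem
      · rw [h1, lst_length]; rfl
      · intro k hk hk'
        have hk2 : k < Nat.card (Ix K) := by rw [lst_length] at hk'; exact hk'
        have := hv (eL.symm ⟨k, hk2⟩)
        rw [Equiv.apply_symm_apply, List.getD_eq_getElem _ _ hk] at this
        rw [← this]
        simp [lst]
    refine ⟨v, (val_iff _ _ _).2 ⟨c.2, ?_⟩, hlv⟩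
    intro A hA
    rw [← hold_iff, ← hlv]
    exact h4 _ (List.mem_map.2 ⟨A, mem_needL.2 hA, rfl⟩)
  · rintro ⟨v, hv, rfl⟩
    refine ⟨lst_length _ _, ?_, ?_⟩
    · intro i hi
      obtain ⟨k, rfl⟩ := mem_lst hi
      exact Fin.isLt (n := F.size n) (v k)
    · intro A hA
      obtain ⟨B, hB, rfl⟩ := List.mem_map.1 hA
      rw [hold_iff]
      exact ((val_iff _ _ _).1 hv).2 B (mem_needL.1 hB)

theorem mem_tiles_iff (n : ℕ) (q : ℕ × ℕ × ℕ × ℕ) :
    q ∈ tiles (dat K) (num F) n ↔ ∃ τ : T K (F.mach n) 0, qd (enc F n) τ = q := by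
  rw [mem_tiles]
  constructor
  · rintro ⟨k, l, h1, h2, h3, h4⟩
    obtain ⟨c, rfl⟩ := (Finite.equivFin {c : Sh K // Shok c}).surjective k
    obtain ⟨v, hv, rfl⟩ := (good_iff n c l).1 ⟨h1, h2, h3⟩
    exact ⟨⟨_, hv⟩, by rw [← h4, quad_qd _ _ _ hv]⟩
  · rintro ⟨τ, rfl⟩
    have hτ : Val (mk (F.mach n) (sh τ.1) (sy τ.1)) := by rw [mk_sh_sy]; exact τ.2
    have hs := ((val_iff (F.mach n) _ _).1 hτ).1
    have e : τ = ⟨mk (F.mach n) (⟨sh τ.1, hs⟩ : {c : Sh K // Shok c}).1 (sy τ.1), hτ⟩ :=
      Subtype.ext (mk_sh_sy τ.1).symm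
    have h := (good_iff n ⟨sh τ.1, hs⟩ (lst (enc F n) (sy τ.1))).2 ⟨sy τ.1, hτ, rfl⟩
    refine ⟨_, _, h.1, h.2.1, h.2.2, ?_⟩
    rw [quad_qd _ _ _ hτ, ← e]

theorem qd_inj (n : ℕ) (hdet : (S K (F.mach n) 0).Det) :
    Function.Injective (qd (K := K) (enc F n)) := by
  intro τ τ' h
  simp only [qd, Prod.mk.injEq] at h
  exact hdet.LB _ _ (icode_inj (enc_inj F n) h.1) (icode_inj (enc_inj F n) h.2.2.1)

theorem tiles_nodup (n : ℕ) (hdet : (S K (F.mach n) 0).Det) :
    (tiles (dat K) (num F) n).Nodup := by
  apply nodup_tiles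
  intro k k' l l' h1 h2 h3 h1' h2' h3' h
  obtain ⟨c, rfl⟩ := (Finite.equivFin {c : Sh K // Shok c}).surjective k
  obtain ⟨c', rfl⟩ := (Finite.equivFin {c : Sh K // Shok c}).surjective k'
  obtain ⟨v, hv, rfl⟩ := (good_iff n c l).1 ⟨h1, h2, h3⟩
  obtain ⟨v', hv', rfl⟩ := (good_iff n c' l').1 ⟨h1', h2', h3'⟩
  rw [quad_qd _ _ _ hv, quad_qd _ _ _ hv'] at h
  have h4 := congrArg Subtype.val (qd_inj n hdet h)
  have h5 : c.1 = c'.1 := congrArg sh h4
  have h6 : v = v' := by
    have := congrArg sy h4
    simpa using this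
  rw [h6, Subtype.ext h5]
  exact ⟨rfl, rfl⟩

end Pool.Agent.VHC
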